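import Pool.Agent.PrepH.Part1
import Pool.Agent.MSC.SetsP

/-!
# Rational points of a curve on the preperiodic hypersurfaces of `(f, …, f)`

Full answer to Q1 of MP_342fbb: yes.
-/

namespace Pool.Agent.Results.MP_342fbb_nt.PreperiodicCurve

open Polynomial Pool.Agent.PrepH Pool.Agent.MSC

/-- Let `K` be a number field with algebraic closure `F`, `f ∈ K[X]` a polynomial of degree `d ≥ 2` that
is not conjugate over `F` to `X ^ d` or to `± C_d`, and `C = zeroSet I` an irreducible non-vertical
curve in `(P¹)ⁿ` over `F` that is contained in no preperiodic hypersurface of `φ = (f, …, f)`. Then only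
finitely many `K`-rational points of `C` lie on preperiodic hypersurfaces. -/
theorem result {K F : Type*} [Field K] [NumberField K] [Field F] [Algebra K F]
    [IsAlgClosure K F] (n : ℕ) (f : K[X]) (hf : 2 ≤ f.natDegree)
    (hpow : ¬ LinConj (f.map (algebraMap K F)) (X ^ f.natDegree))
    (hcheb : ¬ LinConj (f.map (algebraMap K F)) (Chebyshev.C F f.natDegree))
    (hcheb' : ¬ LinConj (f.map (algebraMap K F)) (-Chebyshev.C F f.natDegree))
    (I : Ideal (MvPolynomial (Fin n) F)) (hI : IsCurve I)
    (hC : ∀ V : Set (Fin n → P1 F), IsPreper (f.map (algebraMap K F)) V → ¬ zeroSet I ⊆ V) :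
    {P : Fin n → P1 F | P ∈ zeroSet I ∧ IsRat K P ∧
      ∃ V : Set (Fin n → P1 F), IsPreper (f.map (algebraMap K F)) V ∧ P ∈ V}.Finite := by
  have : IsAlgClosed F := IsAlgClosure.isAlgClosed K
  have : CharZero F := charZero_of_injective_algebraMap (algebraMap K F).injective
  have hdeg : (f.map (algebraMap K F)).natDegree = f.natDegree := natDegree_map _
  have hsp : ¬ Special (f.map (algebraMap K F)) := by
    rintro (h | h | h)
    · exact hpow (by rwa [hdeg] at h)
    · exact hcheb (by rwa [hdeg] at h)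
    · exact hcheb' (by rwa [hdeg] at h)
  have hms := ms_holds (f := f.map (algebraMap K F)) (by rwa [hdeg]) hsp n
  refine (part1 hf hpow hI fun i j g k hij hg hc => hC _
    (isPreper_gr (by rw [hdeg]; omega) hg hc hij k)).subset ?_
  rintro P ⟨hP, hrat, V, ⟨-, k, hper⟩, hPV⟩
  refine ⟨hP, hrat, ?_⟩
  have hcoord : ∀ i, (phi (f.map (algebraMap K F)))^[k] P i =
      (onP1 (f.map (algebraMap K F)))^[k] (P i) := by
    intro i
    clear hPV hper hrat hP
    induction k generalizing P with
    | zero => rfl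
    | succ k ih => rw [Function.iterate_succ_apply, ih, Function.iterate_succ_apply]; rfl
  rcases hms _ hper _ ⟨P, hPV, rfl⟩ with ⟨i, ζ, m, hm, hζ, -, hQ⟩ | ⟨i, j, hij, g, hg, hc, -, hQ⟩
  · refine ⟨_, MSHyp.pt i (P i) k m hm ?_, rfl⟩
    rw [← hcoord, hQ, hζ]
  · refine ⟨_, MSHyp.gr i j hij g hg hc k, ?_⟩
    rw [hcoord, hcoord] at hQ
    exact hQ

end Pool.Agent.Results.MP_342fbb_nt.PreperiodicCurve
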